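import Pool.Agent.helper62.QX.SpecT

/-! GMA: the `*`-homomorphism given by a unitary representation of the free group. -/

set_option autoImplicit false

open scoped Topology
open Filter Set Polynomial
open Pool.Agent.QU Pool.Agent.RP

namespace Pool.Agent.QX

/-- the algebra homomorphism -/
noncomputable def GMA_phi {M : ℕ} (ρ : F2 →* Matrix.unitaryGroup (Fin M) ℂ) :
    MonoidAlgebra ℂ F2 →ₐ[ℂ] Matrix (Fin M) (Fin M) ℂ :=
  MonoidAlgebra.lift ℂ (Matrix (Fin M) (Fin M) ℂ) F2 ((Matrix.unitaryGroup (Fin M) ℂ).subtype.comp ρ)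

theorem GMA_phi_apply {M : ℕ} (ρ : F2 →* Matrix.unitaryGroup (Fin M) ℂ) (a : MonoidAlgebra ℂ F2) :
    GMA_phi ρ a = ∑ w ∈ a.coeff.support, a.coeff w • (ρ w : Matrix (Fin M) (Fin M) ℂ) := by
  unfold GMA_phi
  rw [MonoidAlgebra.lift_apply]
  rfl

theorem GMA_R1 {M : ℕ} (ρ : F2 →* Matrix.unitaryGroup (Fin M) ℂ) (a : MonoidAlgebra ℂ F2) :
    R1 ρ a = GMA_phi ρ a := by
  ext i j
  rw [GMA_phi_apply, Matrix.sum_apply]
  unfold R1
  refine Finset.sum_congr rfl fun w _ => ?_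
  rw [Matrix.smul_apply, smul_eq_mul]

theorem GMA_entry {D M : ℕ} (ρ : F2 →* Matrix.unitaryGroup (Fin M) ℂ) (P : Mat D F2)
    (s t : Fin D × Fin M) : GM ρ P s t = GMA_phi ρ (P s.1 t.1) s.2 t.2 := by
  unfold GM
  rw [GMA_R1]

theorem GMA_mul {D M : ℕ} (ρ : F2 →* Matrix.unitaryGroup (Fin M) ℂ) (P Q : Mat D F2) :
    GM ρ (P * Q) = GM ρ P * GM ρ Q := by
  ext s t
  rw [GMA_entry, Matrix.mul_apply, map_sum, Matrix.sum_apply, Matrix.mul_apply,
    Fintype.sum_prod_type]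
  refine Finset.sum_congr rfl fun k _ => ?_
  rw [map_mul, Matrix.mul_apply]
  refine Finset.sum_congr rfl fun l _ => ?_
  rw [GMA_entry, GMA_entry]

theorem GMA_add {D M : ℕ} (ρ : F2 →* Matrix.unitaryGroup (Fin M) ℂ) (P Q : Mat D F2) :
    GM ρ (P + Q) = GM ρ P + GM ρ Q := by
  ext s t
  rw [GMA_entry, Matrix.add_apply, map_add, Matrix.add_apply, Matrix.add_apply, GMA_entry,
    GMA_entry]

theorem GMA_smul {D M : ℕ} (ρ : F2 →* Matrix.unitaryGroup (Fin M) ℂ) (r : ℝ) (P : Mat D F2) :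
    GM ρ (r • P) = r • GM ρ P := by
  ext s t
  have h : (r • P) s.1 t.1 = (r : ℂ) • P s.1 t.1 := by
    rw [Matrix.smul_apply]
    ext w
    rw [MonoidAlgebra.coeff_smul_apply, MonoidAlgebra.coeff_smul_apply, smul_eq_mul,
      Complex.real_smul]
  rw [GMA_entry, h, map_smul, Matrix.smul_apply, Matrix.smul_apply, GMA_entry, smul_eq_mul,
    Complex.real_smul]

theorem GMA_one {D M : ℕ} (ρ : F2 →* Matrix.unitaryGroup (Fin M) ℂ) :
    GM ρ (1 : Mat D F2) = 1 := by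
  ext s t
  rw [GMA_entry, Matrix.one_apply, Matrix.one_apply]
  by_cases h : s.1 = t.1
  · rw [if_pos h, map_one, Matrix.one_apply]
    by_cases h2 : s.2 = t.2
    · rw [if_pos h2, if_pos (Prod.ext h h2)]
    · rw [if_neg h2, if_neg (fun hst => h2 (congrArg Prod.snd hst))]
  · rw [if_neg h, map_zero, Matrix.zero_apply, if_neg (fun hst => h (congrArg Prod.fst hst))]

theorem GMA_zero {D M : ℕ} (ρ : F2 →* Matrix.unitaryGroup (Fin M) ℂ) :
    GM ρ (0 : Mat D F2) = 0 := by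
  ext s t
  rw [GMA_entry, Matrix.zero_apply, map_zero, Matrix.zero_apply, Matrix.zero_apply]

/-- the homomorphism of real algebras -/
noncomputable def GMA_alg {D M : ℕ} (ρ : F2 →* Matrix.unitaryGroup (Fin M) ℂ) :
    Mat D F2 →ₐ[ℝ] Matrix (Fin D × Fin M) (Fin D × Fin M) ℂ where
  toFun := GM ρ
  map_one' := GMA_one ρ
  map_mul' := GMA_mul ρ
  map_zero' := GMA_zero ρ
  map_add' := GMA_add ρ
  commutes' r := by
    rw [Algebra.algebraMap_eq_smul_one, GMA_smul, GMA_one, Algebra.algebraMap_eq_smul_one]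

theorem GMA_adj {M : ℕ} (ρ : F2 →* Matrix.unitaryGroup (Fin M) ℂ) (a : MonoidAlgebra ℂ F2) :
    GMA_phi ρ (adj a) = (GMA_phi ρ a).conjTranspose := by
  rw [GMA_phi_apply ρ a, Matrix.conjTranspose_sum]
  unfold adj GMA_phi
  rw [map_sum]
  refine Finset.sum_congr rfl fun w _ => ?_
  rw [MonoidAlgebra.lift_single, Matrix.conjTranspose_smul]
  congr 1
  rw [MonoidHom.comp_apply, map_inv]
  rfl

theorem GMA : GMA_stmt := by
  intro D M ρ
  refine ⟨fun a b => ⟨?_, ?_⟩, fun a => ?_, fun a => ?_, fun a h => ?_,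
    fun P Q => ⟨GMA_mul ρ P Q, GMA_add ρ P Q⟩, GMA_smul ρ, GMA_one ρ, fun P n => ?_, fun P h => ?_,
    fun P hP => ?_, fun P => ?_⟩
  · rw [GMA_R1, GMA_R1, GMA_R1, map_mul]
  · rw [GMA_R1, GMA_R1, GMA_R1, map_add]
  · rw [GMA_R1, GMA_R1, GMA_adj]
  · rw [GMA_R1, GMA_phi_apply, Matrix.trace_sum]
    refine Finset.sum_congr rfl fun w _ => ?_
    rw [Matrix.trace_smul, smul_eq_mul]
  · rw [GMA_R1, GMA_R1, pev, map_sum, Polynomial.aeval_eq_sum_range]
    refine Finset.sum_congr rfl fun i _ => ?_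
    rw [map_smul, map_pow]
    ext s t
    rw [Matrix.smul_apply, Matrix.smul_apply, smul_eq_mul, Complex.real_smul]
  · exact map_pow (GMA_alg ρ) P n
  · exact (Polynomial.aeval_algHom_apply (GMA_alg ρ) P h).symm
  · ext s t
    rw [Matrix.conjTranspose_apply, GMA_entry, GMA_entry, ← Matrix.conjTranspose_apply, ← GMA_adj,
      hP]
  · rw [GMA_R1, map_sum, Matrix.trace_sum]
    unfold Matrix.trace
    rw [Fintype.sum_prod_type]
    refine Finset.sum_congr rfl fun i _ => ?_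
    refine Finset.sum_congr rfl fun j _ => ?_
    rw [Matrix.diag_apply, Matrix.diag_apply, GMA_entry]

end Pool.Agent.QX
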